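import Pool.Agent.Helper76.TW.Main

/-!
# Strings of consecutive almost twin primes in one residue class

The first member `p` of a twin prime pair is a prime such that `p + 2` is a prime.  For a fixed
natural number `K` we consider the primes `p` such that `p + 2` has no prime factor
`r ≤ p ^ (1 / K)`; then `p + 2` has at most `K` prime factors.  In the increasing sequence of these
primes a positive proportion of the terms start a string of `m + 1` consecutive terms which all lie
in the class `a` modulo `q`, for every class `a` which can contain infinitely many of them and every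
`K ≥ K₀(m, q)`.
-/

set_option autoImplicit false

namespace Pool.Agent.Results.MP_74f661_nt.AlmostTwinStrings

/-- `p` is a prime and no prime `r ≤ p ^ (1 / K)` divides `p + 2`. -/
def AlmostTwin (K p : ℕ) : Prop := p.Prime ∧ ∀ r : ℕ, r.Prime → r ^ K ≤ p → ¬ r ∣ p + 2

/-- `s K 0 < s K 1 < s K 2 < …` are the numbers `p` with `AlmostTwin K p`. -/
noncomputable def s (K n : ℕ) : ℕ := Nat.nth (AlmostTwin K) n

open scoped Classical in
/-- There are infinitely many such primes. -/
theorem infinite : ∃ K₀ : ℕ, ∀ K : ℕ, K₀ ≤ K → {p : ℕ | AlmostTwin K p}.Infinite := by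
  obtain ⟨K₀, h⟩ := Pool.Agent.Helper76.TW.mPK 0 1 0 le_rfl (by simp)
  refine ⟨K₀, fun K hK => ?_⟩
  obtain ⟨c, lam, x0, hc, -, hx⟩ := h K hK
  rw [← Nat.frequently_atTop_iff_infinite, Filter.frequently_atTop]
  intro N
  have h1 := hx (max x0 (N + 1)) (le_max_left _ _)
  have h2 : (0 : ℝ) < c * ((max x0 (N + 1) : ℕ) : ℝ) := by
    have : 0 < max x0 (N + 1) := lt_of_lt_of_le (Nat.succ_pos N) (le_max_right _ _)
    have : (0 : ℝ) < ((max x0 (N + 1) : ℕ) : ℝ) := by exact_mod_cast this
    positivity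
  have h3 := lt_of_lt_of_le h2 h1
  have h4 := Finset.card_pos.1 (by exact_mod_cast h3)
  obtain ⟨n, hn⟩ := h4
  obtain ⟨hn1, hn2, -⟩ := Finset.mem_filter.1 hn
  obtain ⟨j, hj⟩ := Finset.card_pos.1 (lt_of_lt_of_le Nat.zero_lt_one hn2)
  obtain ⟨-, hj2⟩ := Finset.mem_filter.1 hj
  refine ⟨n + j, ?_, hj2⟩
  have := (Finset.mem_Ioc.1 hn1).1
  have := le_max_right x0 (N + 1)
  omega

/-- For all `m` and `q ≥ 1` there is `K₀` such that for `K ≥ K₀` there are infinitely many primes
`p` with `AlmostTwin K p`, and a positive proportion of them start a string of `m + 1` consecutive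
ones which are all in the class `a` modulo `q`, for every `a` with `a` and `a + 2` prime to `q`. -/
theorem result : ∀ m q : ℕ, 1 ≤ q → ∃ K₀ : ℕ, ∀ K : ℕ, K₀ ≤ K →
    {p : ℕ | AlmostTwin K p}.Infinite ∧
    ∃ c : ℝ, 0 < c ∧ ∃ x₀ : ℕ, ∀ a : ℕ, Nat.Coprime (a * (a + 2)) q → ∀ x : ℕ, x₀ ≤ x →
      c * ({n : ℕ | s K n ≤ x}.ncard : ℝ) ≤
        ({n : ℕ | s K n ≤ x ∧ ∀ i ≤ m, s K (n + i) ≡ a [MOD q]}.ncard : ℝ) := by
  intro m q hq
  obtain ⟨K₁, h1⟩ := infinite
  obtain ⟨K₂, h2⟩ := Pool.Agent.Helper76.TW.mFN m q hq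
  exact ⟨max K₁ K₂, fun K hK =>
    ⟨h1 K ((le_max_left _ _).trans hK), h2 K ((le_max_right _ _).trans hK)⟩⟩

end Pool.Agent.Results.MP_74f661_nt.AlmostTwinStrings
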