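import Pool.Agent.Helper41.PS.Main

/-!
# Strings of consecutive prime pairs `(p, p + h)` in one residue class

For a natural number `h` consider the primes `p` such that `p + h` is also a prime (`h = 2`: the first
members of the twin prime pairs).  For a positive proportion of the `h` of a short range, a positive
proportion of these primes `p ≤ x` start a string of `m + 1` consecutive ones which are all in the class
`a` modulo `q`, for all classes `a` of a given set at once; the strings can be required to lie in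
intervals of length `ε log² x`.
-/

set_option autoImplicit false

namespace Pool.Agent.Results.MP_74f661_nt.PrimePairStrings

/-- `p` and `p + h` are primes. -/
def Pair (h p : ℕ) : Prop := p.Prime ∧ (p + h).Prime

/-- `p` is the first member of a pair, and for some `y ≤ p + R` all first members of pairs in `[p, y]`
are in the class `a` modulo `q`, and there are at least `m + 1` of them; in other words `p` and the next
`m` first members are in the class `a` and are at most `p + R`. -/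
def Starts (m q : ℕ) (R : ℝ) (a h p : ℕ) : Prop :=
  Pair h p ∧ ∃ y : ℕ, (y : ℝ) ≤ p + R ∧
    (∀ t : ℕ, p ≤ t → t ≤ y → Pair h t → t ≡ a [MOD q]) ∧
    m + 1 ≤ {t : ℕ | p ≤ t ∧ t ≤ y ∧ Pair h t}.ncard

open scoped Classical in
theorem ncard_eq (P : ℕ → Prop) (u v : ℕ) (hP : ∀ n, P n → u ≤ n) :
    {n : ℕ | n ≤ v ∧ P n}.ncard = ((Finset.Icc u v).filter (fun n => P n)).card := by
  rw [← Set.ncard_coe_finset]
  congr 1
  ext n
  simp only [Set.mem_ofPred_eq, Finset.coe_filter, Finset.mem_Icc]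
  constructor
  · rintro ⟨h1, h2⟩
    exact ⟨⟨hP n h2, h1⟩, h2⟩
  · rintro ⟨⟨_, h1⟩, h2⟩
    exact ⟨h1, h2⟩

theorem starts_iff (m q : ℕ) (R : ℝ) (a h p : ℕ) :
    Starts m q R a h p ↔ Pool.Agent.Helper41.PS.Str m q R a h p := by
  classical
  unfold Starts Pool.Agent.Helper41.PS.Str
  have hT : Pair h = Pool.Agent.Helper41.PS.T h := rfl
  rw [hT]
  refine and_congr_right fun _ => exists_congr fun y => and_congr_right fun _ => ?_
  refine and_congr ?_ ?_
  · simp only [Finset.mem_Icc, and_imp]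
  · have h1 : {t : ℕ | p ≤ t ∧ t ≤ y ∧ Pool.Agent.Helper41.PS.T h t} =
        {t : ℕ | t ≤ y ∧ (p ≤ t ∧ Pool.Agent.Helper41.PS.T h t)} := by
      ext t
      simp only [Set.mem_ofPred_eq]
      tauto
    rw [h1, ncard_eq _ p y (fun n hn => hn.1)]
    apply Eq.to_iff
    congr 2
    ext t
    simp only [Finset.mem_filter, Finset.mem_Icc]
    tauto

/-- For all `m, q ≥ 1` and every nonempty set `A` of numbers prime to `q` there is `C` such that for every
`ε > 0` there are `c > 0` and `x₀` such that for all `x ≥ x₀` and all `H` with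
`C (log x) ^ ((m + 1) #A) ≤ H ≤ x` at least `c H` of the multiples `h ≤ H` of `q` have the following
property for all `a ∈ A` at once: the number of the `p ≤ x` which start a string of `m + 1` pairs
`(p, p + h)` in the class `a` is at least `c x / log² x` and at least `c` times the number of all pairs
with `p ≤ x`. -/
theorem result : ∀ (m q : ℕ) (A : Finset ℕ), 1 ≤ m → 1 ≤ q → A.Nonempty →
    (∀ a ∈ A, Nat.Coprime a q) → ∃ C : ℝ, ∀ ε : ℝ, 0 < ε → ∃ c : ℝ, 0 < c ∧ ∃ x₀ : ℕ,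
    ∀ x H : ℕ, x₀ ≤ x → C * Real.log x ^ ((m + 1) * A.card) ≤ H → H ≤ x →
    c * H ≤ ({h : ℕ | 1 ≤ h ∧ h ≤ H ∧ q ∣ h ∧ ∀ a ∈ A,
      c * (x / Real.log x ^ 2) ≤
        ({p : ℕ | p ≤ x ∧ Starts m q (ε * Real.log x ^ 2) a h p}.ncard : ℝ) ∧
      c * ({p : ℕ | p ≤ x ∧ Pair h p}.ncard : ℝ) ≤
        ({p : ℕ | p ≤ x ∧ Starts m q (ε * Real.log x ^ 2) a h p}.ncard : ℝ)}.ncard : ℝ) := by
  classical
  intro m q A hm hq hA hco
  obtain ⟨C, hC⟩ := Pool.Agent.Helper41.PS.mFIN m q A hm hq hA hco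
  refine ⟨C, fun ε hε => ?_⟩
  obtain ⟨c, hc, x0, h⟩ := hC ε hε
  refine ⟨c, hc, x0, fun x H hx h1 h2 => ?_⟩
  have e1 : ∀ k : ℕ, {p : ℕ | p ≤ x ∧ Pair k p}.ncard =
      ((Finset.Icc 1 x).filter (fun p => Pool.Agent.Helper41.PS.T k p)).card := fun k =>
    ncard_eq _ 1 x fun n hn => hn.1.pos
  have e2 : ∀ a k : ℕ, ({p : ℕ | p ≤ x ∧ Starts m q (ε * Real.log x ^ 2) a k p}.ncard : ℝ) =
      Pool.Agent.Helper41.PS.NS m q (ε * Real.log x ^ 2) a k x := by
    intro a k
    unfold Pool.Agent.Helper41.PS.NS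
    rw [ncard_eq _ 1 x fun n hn => hn.1.1.pos]
    simp only [starts_iff]
  refine (h x H hx h1 h2).trans (le_of_eq ?_)
  norm_cast
  have e3 : {k : ℕ | 1 ≤ k ∧ k ≤ H ∧ q ∣ k ∧ ∀ a ∈ A,
      c * (x / Real.log x ^ 2) ≤
        ({p : ℕ | p ≤ x ∧ Starts m q (ε * Real.log x ^ 2) a k p}.ncard : ℝ) ∧
      c * ({p : ℕ | p ≤ x ∧ Pair k p}.ncard : ℝ) ≤
        ({p : ℕ | p ≤ x ∧ Starts m q (ε * Real.log x ^ 2) a k p}.ncard : ℝ)} =
      {k : ℕ | k ≤ H ∧ (1 ≤ k ∧ q ∣ k ∧ ∀ a ∈ A,
      c * (x / Real.log x ^ 2) ≤ Pool.Agent.Helper41.PS.NS m q (ε * Real.log x ^ 2) a k x ∧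
      c * (((Finset.Icc 1 x).filter (fun p => Pool.Agent.Helper41.PS.T k p)).card : ℝ)
        ≤ Pool.Agent.Helper41.PS.NS m q (ε * Real.log x ^ 2) a k x)} := by
    ext k
    simp only [Set.mem_ofPred_eq, e1, e2]
    tauto
  rw [e3, ncard_eq _ 1 H fun n hn => hn.1]
  congr 1
  ext k
  simp only [Finset.mem_filter, Finset.mem_Icc]
  tauto

end Pool.Agent.Results.MP_74f661_nt.PrimePairStrings
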