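import Pool.Agent.Helper76.TB.T3W

/-!
# The exact second order term in the random sieve model of twin primes

The residue classes removed modulo the primes `p ≤ ρ s`, `s = ⌊n ^ (1 / 4)⌋`, are arbitrary (for
instance the true class `0`), the classes removed modulo the larger primes `p ≤ Z n` are random.
With all classes random (`ρ = 0`) and density `∏_{p ≤ Z n} (1 - 1 / p) ∼ 1 / log n` (`B = 1`) this is
the Banks-Ford-Tao model.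
-/

set_option autoImplicit false

open Finset Filter Topology MeasureTheory ProbabilityTheory

namespace Pool.Agent.Results.MP_74f661_nt.RandomTwinBias

/-- For the increasing enumeration `s_0 < s_1 < …` of the numbers satisfying `P`: the number of
indices `i` with `s_i ≤ x` and `s_i ≡ c (mod 4)`. -/
noncomputable def count₁ (P : ℕ → Prop) (x c : ℕ) : ℕ :=
  {i : ℕ | Nat.nth P i ≤ x ∧ Nat.nth P i % 4 = c}.ncard

/-- The number of indices `i` with `s_i ≤ x`, `s_i ≡ c` and `s_{i+1} ≡ d (mod 4)`. -/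
noncomputable def count₂ (P : ℕ → Prop) (x c d : ℕ) : ℕ :=
  {i : ℕ | Nat.nth P i ≤ x ∧ Nat.nth P i % 4 = c ∧ Nat.nth P (i + 1) % 4 = d}.ncard

/-- The transition frequency `δ(x; 4; c|d)`. -/
noncomputable def delta (P : ℕ → Prop) (x c d : ℕ) : ℝ :=
  (count₂ P x c d : ℝ) / (count₁ P x c : ℝ)

/-- Cutoffs with `∏_{p ≤ Z n} (1 - 1 / p) ∼ B / log n`. -/
def Cut (B : ℝ) (Z : ℕ → ℕ) : Prop :=
  Monotone Z ∧ (∀ n, Z n ≤ n) ∧
    Tendsto (fun n : ℕ => (∏ p ∈ (range (Z n + 1)).filter Nat.Prime, (1 - 1 / (p : ℝ))) *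
      Real.log n) atTop (𝓝 B)

/-- Thresholds: `ρ s ≤ s` and `log (ρ s) = o (log s / log log s)`. -/
def Thr (ρ : ℕ → ℕ) : Prop :=
  (∀ s, ρ s ≤ s) ∧
    Tendsto (fun s : ℕ => Real.log (ρ s) * Real.log (Real.log s) / Real.log s) atTop (𝓝 0)

/-- Independent residue classes, `ω p` uniform in `{0, …, p - 1}` for every prime `p`. -/
def Uni {Ω : Type} [MeasurableSpace Ω] (μ : Measure Ω) (ω : ℕ → Ω → ℕ) : Prop :=
  (∀ p, Measurable (ω p)) ∧ iIndepFun ω μ ∧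
    ∀ p : ℕ, p.Prime → ∀ c < p, μ {w | ω p w = c} = (p : ENNReal)⁻¹

/-- The classes `β s p` (`p ≤ ρ s`) depend on the classes modulo `q ≤ ρ s` only. -/
def Adapted (ρ : ℕ → ℕ) (β : ℕ → ℕ → (ℕ → ℕ) → ℕ) : Prop :=
  ∀ s p : ℕ, p ≤ ρ s → ∀ a a' : ℕ → ℕ, (∀ q ≤ ρ s, a q = a' q) → β s p a = β s p a'

/-- `⌊n ^ (1 / 4)⌋` -/
def root4 (n : ℕ) : ℕ := Nat.findGreatest (fun r => r ^ 4 ≤ n) n

/-- The residue class removed modulo the prime `p` near `n`: `β s p a` for `p ≤ ρ s`,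
`s = ⌊n ^ (1 / 4)⌋`, and `a p` for the larger primes. -/
def cls (ρ : ℕ → ℕ) (β : ℕ → ℕ → (ℕ → ℕ) → ℕ) (a : ℕ → ℕ) (n p : ℕ) : ℕ :=
  if p ≤ ρ (root4 n) then β (root4 n) p a else a p

/-- `(n, n + 2)` is a surviving pair of odd integers. -/
def Pair (Z ρ : ℕ → ℕ) (β : ℕ → ℕ → (ℕ → ℕ) → ℕ) (a : ℕ → ℕ) (n : ℕ) : Prop :=
  n % 2 = 1 ∧ ∀ p : ℕ, p.Prime → 3 ≤ p → p ≤ Z n →
    ¬ n ≡ cls ρ β a n p [MOD p] ∧ ¬ n + 2 ≡ cls ρ β a n p [MOD p]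

theorem result (B : ℝ) (hB : 0 < B) (Z : ℕ → ℕ) (hZ : Cut B Z) (ρ : ℕ → ℕ) (hρ : Thr ρ)
    (β : ℕ → ℕ → (ℕ → ℕ) → ℕ) (hβ : Adapted ρ β)
    (Ω : Type) [MeasurableSpace Ω] (μ : Measure Ω) [IsProbabilityMeasure μ] (ω : ℕ → Ω → ℕ)
    (hω : Uni μ ω) :
    ∀ᵐ w ∂μ, ∀ a b : ℕ, (a = 1 ∨ a = 3) → (b = 1 ∨ b = 3) →
      Tendsto (fun x : ℕ => (Real.log x / Real.log (Real.log x)) ^ 2 *
        (delta (Pair Z ρ β (fun p => ω p w)) x a b - 1 / 2)) atTop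
        (𝓝 ((if a = b then -1 else 1) * (B ^ 2 / 2))) :=
  Helper76.TB.t3w_final B hB Z ρ hZ.1 hZ.2.1 hZ.2.2 ⟨hρ.1, hρ.2⟩ β hβ Ω μ ω
    ⟨hω.1, hω.2.1, hω.2.2⟩

end Pool.Agent.Results.MP_74f661_nt.RandomTwinBias
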