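import Pool.Agent.Helper76.TB.Final

/-!
# The exact second order term for consecutive rough twin pairs

For the pairs `(n, n + 2)` free of prime factors `≤ z` the transition frequencies modulo 4 are
`1 / 2 ∓ (exp (-2 γ) / 2 + o (1)) (log log z / log z) ^ 2`, with the sign observed for twin primes,
uniformly in `x` up to an error `O (exp (-c log x / log z))`.
-/

set_option autoImplicit false

namespace Pool.Agent.Results.MP_74f661_nt.RoughTwinBias

/-- `(n, n + 2)` is a `z`-rough pair: neither `n` nor `n + 2` has a prime factor `≤ z`. -/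
def RoughTwin (z n : ℕ) : Prop := ∀ p : ℕ, p.Prime → p ≤ z → ¬ p ∣ n ∧ ¬ p ∣ (n + 2)

/-- For the increasing enumeration `s_0 < s_1 < …` of the numbers satisfying `P`: the number of
indices `i` with `s_i ≤ x` and `s_i ≡ a (mod 4)`. -/
noncomputable def count₁ (P : ℕ → Prop) (x a : ℕ) : ℕ :=
  {i : ℕ | Nat.nth P i ≤ x ∧ Nat.nth P i % 4 = a}.ncard

/-- The number of indices `i` with `s_i ≤ x`, `s_i ≡ a` and `s_{i+1} ≡ b (mod 4)`. -/
noncomputable def count₂ (P : ℕ → Prop) (x a b : ℕ) : ℕ :=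
  {i : ℕ | Nat.nth P i ≤ x ∧ Nat.nth P i % 4 = a ∧ Nat.nth P (i + 1) % 4 = b}.ncard

/-- The transition frequency `δ(x; 4; a|b)`. -/
noncomputable def delta (P : ℕ → Prop) (x a b : ℕ) : ℝ :=
  (count₂ P x a b : ℝ) / (count₁ P x a : ℝ)

theorem result :
    ∃ c C : ℝ, 0 < c ∧ 0 < C ∧ ∀ ε : ℝ, 0 < ε → ∃ z₀ : ℕ, ∀ z x : ℕ, z₀ ≤ z →
      ∀ a b : ℕ, (a = 1 ∨ a = 3) → (b = 1 ∨ b = 3) →
        |delta (RoughTwin z) x a b - 1 / 2 - (if a = b then -1 else 1) *
            (Real.exp (-2 * Real.eulerMascheroniConstant) / 2) *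
              (Real.log (Real.log z) / Real.log z) ^ 2|
          ≤ ε * (Real.log (Real.log z) / Real.log z) ^ 2
            + C * Real.exp (-(c * (Real.log x / Real.log z))) :=
  Helper76.TB.t2u_final

end Pool.Agent.Results.MP_74f661_nt.RoughTwinBias
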